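import Pool.Agent.H765R3.Peg.Gauge

/-! Chords of a Jordan curve without inscribed squares seen from a point inside. -/

set_option autoImplicit false
open Complex Set Topology Metric

namespace Pool.Agent.H765R3.Peg

open Pool.Agent.H763R2 Pool.Agent.H763R2.An
open Pool.Agent.H763R2.Dm (NoSq)

variable {c : ℝ → ℂ}

theorem angle_principle (L : Loop c) (J : Inj c) (nosq : NoSq (range c)) {φ : ℝ → ℝ}
    (hφ : Continuous φ) (hφ1 : ∀ t, φ (t + 1) = φ t + 2 * Real.pi) {θ : ℝ} (h0 : 0 < θ)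
    (h1 : θ < 2 * Real.pi) {σ τ : ℝ} (hσ : σ = 1 ∨ σ = -1) (hτ : τ = 1 ∨ τ = -1) :
    ∃ x y, x < y ∧ y < x + 1 ∧ φ y = φ x + θ ∧ 0 ≤ σ * mgc c (DD c x y) ∧
      0 ≤ τ * mgc c (CC c x y) := by
  obtain ⟨x, y, hx, hy, hG, a, b⟩ := crossing L J nosq
    (G := fun p => φ p.2 - φ p.1 - θ) (by fun_prop) (fun x y => by simp only [hφ1]; ring)
    (fun x => by simp only; linarith) (fun x => by simp only [hφ1]; linarith) hσ hτ
  exact ⟨x, y, hx, hy, by simp only at hG; linarith, a, b⟩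

theorem sqrt_mul_half : (√2 : ℂ) * √2 = 2 := by
  rw [← ofReal_mul, Real.mul_self_sqrt (by norm_num)]; norm_num

theorem exp_quarter (α : ℝ) : exp (((α + Real.pi / 4 : ℝ) : ℂ) * I) =
    exp ((α : ℂ) * I) * ((√2 / 2 : ℂ) * (1 + I)) := by
  rw [ofReal_add, add_mul, exp_add]
  congr 1
  rw [exp_mul_I, ← ofReal_cos, ← ofReal_sin, Real.cos_pi_div_four, Real.sin_pi_div_four]
  push_cast; ring

theorem exp_quarter' (α : ℝ) : exp (((α - Real.pi / 4 : ℝ) : ℂ) * I) =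
    exp ((α : ℂ) * I) * ((√2 / 2 : ℂ) * (1 - I)) := by
  rw [sub_eq_add_neg, ofReal_add, add_mul, exp_add]
  congr 1
  rw [exp_mul_I, ← ofReal_cos, ← ofReal_sin, Real.cos_neg, Real.sin_neg, Real.cos_pi_div_four,
    Real.sin_pi_div_four]
  push_cast; ring

theorem exp_half (α : ℝ) : exp (((α + Real.pi / 2 : ℝ) : ℂ) * I) = exp ((α : ℂ) * I) * I := by
  rw [ofReal_add, add_mul, exp_add]
  congr 1
  rw [exp_mul_I, ← ofReal_cos, ← ofReal_sin, Real.cos_pi_div_two, Real.sin_pi_div_two]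
  simp

theorem exp_three (α : ℝ) : exp (((α + 3 * Real.pi / 4 : ℝ) : ℂ) * I) =
    exp ((α : ℂ) * I) * ((√2 / 2 : ℂ) * (-1 + I)) := by
  rw [show α + 3 * Real.pi / 4 = (α + Real.pi / 2) + Real.pi / 4 by ring, exp_quarter, exp_half]
  linear_combination (exp ((α : ℂ) * I) * (√2 / 2 : ℂ)) * I_sq

/-- four points of the curve at consecutive directions -/
theorem four_directions (L : Loop c) (J : Inj c) (nosq : NoSq (range c)) {φ : ℝ → ℝ}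
    (hφ : Continuous φ) (hφ1 : ∀ t, φ (t + 1) = φ t + 2 * Real.pi) (h0 : ∀ t, c t ≠ 0)
    (hpol : ∀ t, c t = ‖c t‖ * exp (φ t * I)) :
    ∃ α r₀ r₁ r₂ r₃ : ℝ, 0 < r₀ ∧ 0 < r₃ ∧ √2 * r₀ + r₃ ≤ r₁ ∧ r₀ + √2 * r₃ ≤ r₂ ∧
      (r₀ : ℂ) * exp (((α : ℝ) : ℂ) * I) ∈ range c ∧
      (r₁ : ℂ) * exp (((α + Real.pi / 4 : ℝ) : ℂ) * I) ∈ range c ∧
      (r₂ : ℂ) * exp (((α + Real.pi / 2 : ℝ) : ℂ) * I) ∈ range c ∧
      (r₃ : ℂ) * exp (((α + 3 * Real.pi / 4 : ℝ) : ℂ) * I) ∈ range c := by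
  have hπ := Real.pi_pos
  obtain ⟨x, y, hx, hy, hxy, d1, d2⟩ := angle_principle L J nosq hφ hφ1 (θ := 5 * Real.pi / 4)
    (by linarith) (by linarith) (σ := 1) (τ := 1) (Or.inl rfl) (Or.inl rfl)
  rw [one_mul] at d1 d2
  have s2 := sqrt_mul_half
  set α := φ y with hα
  set u := exp (((α : ℝ) : ℂ) * I) with hu
  have u0 : u ≠ 0 := exp_ne_zero _
  have eB : c y = ‖c y‖ * u := hpol y
  have eA : c x = ‖c x‖ * exp (((α + 3 * Real.pi / 4 : ℝ) : ℂ) * I) := by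
    rw [hpol x]
    have : exp (((α + 3 * Real.pi / 4 : ℝ) : ℂ) * I) = exp ((φ x : ℂ) * I) := by
      rw [exp_eq_exp_iff_exists_int]
      refine ⟨1, ?_⟩
      rw [hxy]; push_cast; ring
    rw [this]
    simp [norm_exp_ofReal_mul_I]
  have e3 := exp_three α
  have e2 := exp_half α
  have e1 := exp_quarter α
  rw [← hu] at e1 e2 e3
  have a0 : 0 < ‖c x‖ := norm_pos_iff.2 (h0 x)
  have b0 : 0 < ‖c y‖ := norm_pos_iff.2 (h0 y)
  set a := ‖c x‖ with ha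
  set b := ‖c y‖ with hb
  rw [e3] at eA
  have hD : DD c x y = ((b + √2 * a : ℝ) : ℂ) * (u * I) := by
    unfold DD Sq.Dv
    rw [eA, eB]
    push_cast
    linear_combination (-(a:ℂ) * u * (√2 / 2) ) * I_sq
  have hC : CC c x y = ((√2 * b + a : ℝ) : ℂ) * (u * ((√2 / 2 : ℂ) * (1 + I))) := by
    unfold CC Sq.Cv
    rw [eA, eB]
    push_cast
    linear_combination (-(b:ℂ) * u * (1 + I) / 2) * s2 - ((a:ℂ) * u * (√2 / 2)) * I_sq
  obtain ⟨s, hs, t, ht⟩ := ray L (z := DD c x y) (v := u * I) (mul_ne_zero u0 I_ne_zero) d1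
  have v0 : u * ((√2 / 2 : ℂ) * (1 + I)) ≠ 0 := by rw [← e1]; exact exp_ne_zero _
  obtain ⟨s', hs', t', ht'⟩ := ray L (z := CC c x y) v0 d2
  refine ⟨α, b, √2 * b + a + s', b + √2 * a + s, a, b0, a0, by linarith, by linarith,
    ⟨y, eB⟩, ⟨t', ?_⟩, ⟨t, ?_⟩, ⟨x, ?_⟩⟩
  · rw [ht', hC, e1]; push_cast; ring
  · rw [ht, hD, e2]; push_cast; ring
  · rw [eA, e3]

theorem isWc_zero {φ : ℝ → ℝ} (L : Loop c)
    (hφ : Continuous φ) (hφ1 : ∀ t, φ (t + 1) = φ t + 2 * Real.pi) (h0 : ∀ t, c t ≠ 0)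
    (hpol : ∀ t, c t = ‖c t‖ * exp (φ t * I)) : IsWc c 0 1 := by
  refine ⟨fun t => ((Real.log ‖c t‖ : ℝ) : ℂ) + φ t * I, ?_, fun t => ?_, ?_⟩
  · have h1 : Continuous fun t => Real.log ‖c t‖ :=
      L.cont.norm.log (fun t => (norm_pos_iff.2 (h0 t)).ne')
    fun_prop
  · rw [exp_add, ← ofReal_exp, Real.exp_log (norm_pos_iff.2 (h0 t)), sub_zero]
    exact (hpol t).symm
  · have h1 := L.per 0
    have h2 := hφ1 0
    rw [zero_add] at h1 h2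
    simp only [h1, h2]
    push_cast; ring

/-- a point in the closed exterior is separated from the centre by the curve -/
theorem seg_out {φ : ℝ → ℝ} (L : Loop c)
    (hφ : Continuous φ) (hφ1 : ∀ t, φ (t + 1) = φ t + 2 * Real.pi) (h0 : ∀ t, c t ≠ 0)
    (hpol : ∀ t, c t = ‖c t‖ * exp (φ t * I)) {z : ℂ} (hz : mgc c z ≤ 0) :
    ∃ s : ℝ, 0 < s ∧ s ≤ 1 ∧ s * z ∈ range c := by
  by_contra hcon
  have hno : ∀ s ∈ Icc (0:ℝ) 1, (0:ℂ) + s * (z - 0) ∉ range c := by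
    rintro s ⟨hs0, hs1⟩ hs
    rw [zero_add, sub_zero] at hs
    rcases hs0.lt_or_eq with h | h
    · exact hcon ⟨s, h, hs1, hs⟩
    · rw [← h] at hs
      obtain ⟨t, ht⟩ := hs
      exact h0 t (by rw [ht]; simp)
  have hw := L.segW hno (isWc_zero L hφ hφ1 h0 hpol)
  have hz' : z ∉ range c := by
    have := hno 1 ⟨zero_le_one, le_rfl⟩
    simpa using this
  have h1 : mgc c z = infDist z (range c) := by
    unfold mgc
    rw [if_pos ⟨1, hw, odd_one⟩]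
  have h2 := (L.closed.notMem_iff_infDist_pos L.ne).1 hz'
  linarith

/-- the dual pattern -/
theorem dual_directions (L : Loop c) (J : Inj c) (nosq : NoSq (range c)) {φ : ℝ → ℝ}
    (hφ : Continuous φ) (hφ1 : ∀ t, φ (t + 1) = φ t + 2 * Real.pi) (h0 : ∀ t, c t ≠ 0)
    (hpol : ∀ t, c t = ‖c t‖ * exp (φ t * I)) :
    ∃ α a b s t : ℝ, 0 < a ∧ 0 < b ∧ 0 < s ∧ s ≤ 1 ∧ 0 < t ∧ t ≤ 1 ∧
      ((s * (√2 * a - b) : ℝ) : ℂ) * exp (((α - Real.pi / 4 : ℝ) : ℂ) * I) ∈ range c ∧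
      (a : ℂ) * exp (((α : ℝ) : ℂ) * I) ∈ range c ∧
      (b : ℂ) * exp (((α + Real.pi / 4 : ℝ) : ℂ) * I) ∈ range c ∧
      ((t * (√2 * b - a) : ℝ) : ℂ) * exp (((α + Real.pi / 2 : ℝ) : ℂ) * I) ∈ range c := by
  have hπ := Real.pi_pos
  obtain ⟨x, y, hx, hy, hxy, d1, d2⟩ := angle_principle L J nosq hφ hφ1 (θ := Real.pi / 4)
    (by linarith) (by linarith) (σ := -1) (τ := -1) (Or.inr rfl) (Or.inr rfl)
  have s2 := sqrt_mul_half
  set α := φ x with hα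
  set u := exp (((α : ℝ) : ℂ) * I) with hu
  have eA : c x = ‖c x‖ * u := hpol x
  have e1 := exp_quarter α
  have e2 := exp_half α
  have e4 := exp_quarter' α
  rw [← hu] at e1 e2 e4
  have eB : c y = ‖c y‖ * (u * ((√2 / 2 : ℂ) * (1 + I))) := by
    rw [← e1, ← hxy]; exact hpol y
  have a0 : 0 < ‖c x‖ := norm_pos_iff.2 (h0 x)
  have b0 : 0 < ‖c y‖ := norm_pos_iff.2 (h0 y)
  set a := ‖c x‖ with ha
  set b := ‖c y‖ with hb
  have hD : DD c x y = ((√2 * a - b : ℝ) : ℂ) * (u * ((√2 / 2 : ℂ) * (1 - I))) := by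
    unfold DD Sq.Dv
    rw [eA, eB]
    push_cast
    linear_combination (-(a:ℂ) * u * (1 - I) / 2) * s2 + ((b:ℂ) * u * (√2 / 2)) * I_sq
  have hC : CC c x y = ((√2 * b - a : ℝ) : ℂ) * (u * I) := by
    unfold CC Sq.Cv
    rw [eA, eB]
    push_cast
    linear_combination ((b:ℂ) * u * (√2 / 2)) * I_sq
  obtain ⟨s, hs0, hs1, hs⟩ := seg_out L hφ hφ1 h0 hpol (z := DD c x y) (by linarith)
  obtain ⟨t, ht0, ht1, ht⟩ := seg_out L hφ hφ1 h0 hpol (z := CC c x y) (by linarith)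
  refine ⟨α, a, b, s, t, a0, b0, hs0, hs1, ht0, ht1, ?_, ⟨x, eA⟩, ⟨y, ?_⟩, ?_⟩
  · rw [hD] at hs
    rw [e4]
    convert hs using 1
    push_cast; ring
  · rw [eB, e1]
  · rw [hC] at ht
    rw [e2]
    convert ht using 1
    push_cast; ring

end Pool.Agent.H765R3.Peg
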