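import Pool.Agent.H777R2.Top

/-! A crossing lemma for two arcs and vertical rays. -/

set_option autoImplicit false
open Complex Set Topology

namespace Pool.Agent.H765R3.Peg

/-- clamp -/
noncomputable def cl (t : ℝ) : ℝ := max 0 (min 1 t)

theorem cl_cont : Continuous cl := by unfold cl; fun_prop
theorem cl_mem (t : ℝ) : cl t ∈ Icc (0:ℝ) 1 := ⟨le_max_left _ _, max_le zero_le_one (min_le_left _ _)⟩
theorem cl_le {t : ℝ} (h : t ≤ 0) : cl t = 0 := by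
  unfold cl; rw [min_eq_right (by linarith), max_eq_left h]
theorem cl_ge {t : ℝ} (h : 1 ≤ t) : cl t = 1 := by
  unfold cl; rw [min_eq_left h, max_eq_right zero_le_one]

/-- an arc with two straight segments added -/
noncomputable def F3 (γ : ℝ → ℂ) (p0 p3 : ℂ) (t : ℝ) : ℂ :=
  p0 + cl (3 * t) * (γ 0 - p0) + (γ (cl (3 * t - 1)) - γ 0) + cl (3 * t - 2) * (p3 - γ 1)

theorem F3_cont {γ : ℝ → ℂ} (hγ : Continuous γ) (p0 p3 : ℂ) : Continuous (F3 γ p0 p3) := by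
  have h1 : Continuous fun t : ℝ => cl (3 * t) := cl_cont.comp (by fun_prop)
  have h2 : Continuous fun t : ℝ => cl (3 * t - 1) := cl_cont.comp (by fun_prop)
  have h3 : Continuous fun t : ℝ => cl (3 * t - 2) := cl_cont.comp (by fun_prop)
  unfold F3
  fun_prop

theorem F3_zero (γ : ℝ → ℂ) (p0 p3 : ℂ) : F3 γ p0 p3 0 = p0 := by
  unfold F3
  rw [cl_le (by norm_num), cl_le (by norm_num), cl_le (by norm_num)]
  simp

theorem F3_one (γ : ℝ → ℂ) (p0 p3 : ℂ) : F3 γ p0 p3 1 = p3 := by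
  unfold F3
  rw [cl_ge (by norm_num), cl_ge (by norm_num), cl_ge (by norm_num)]
  push_cast; ring

theorem F3_cases (γ : ℝ → ℂ) (p0 p3 : ℂ) (t : ℝ) :
    (∃ s ∈ Icc (0:ℝ) 1, F3 γ p0 p3 t = γ 0 + s * (p0 - γ 0)) ∨
    (∃ s ∈ Icc (0:ℝ) 1, F3 γ p0 p3 t = γ s) ∨
    (∃ s ∈ Icc (0:ℝ) 1, F3 γ p0 p3 t = γ 1 + s * (p3 - γ 1)) := by
  rcases le_total (3 * t) 1 with h | h
  · left
    refine ⟨1 - cl (3 * t), ⟨by linarith [(cl_mem (3 * t)).2], by linarith [(cl_mem (3 * t)).1]⟩, ?_⟩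
    unfold F3
    rw [cl_le (t := 3 * t - 1) (by linarith), cl_le (t := 3 * t - 2) (by linarith)]
    push_cast; ring
  rcases le_total (3 * t) 2 with h' | h'
  · right; left
    refine ⟨cl (3 * t - 1), cl_mem _, ?_⟩
    unfold F3
    rw [cl_ge h, cl_le (t := 3 * t - 2) (by linarith)]
    push_cast; ring
  · right; right
    refine ⟨cl (3 * t - 2), cl_mem _, ?_⟩
    unfold F3
    rw [cl_ge h, cl_ge (t := 3 * t - 1) (by linarith)]
    push_cast; ring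

theorem norm_le_of {z : ℂ} {x y ρ : ℝ} (hρ : 0 ≤ ρ) (h1 : z.re = x) (h2 : |z.im| ≤ y)
    (h : x ^ 2 + y ^ 2 ≤ ρ ^ 2) : ‖z‖ ≤ ρ := by
  rw [← abs_of_nonneg hρ, ← abs_norm, ← sq_le_sq, ← normSq_eq_norm_sq, normSq_apply, h1]
  have : z.im * z.im ≤ y ^ 2 := by
    have := mul_self_le_mul_self (abs_nonneg _) h2
    rw [abs_mul_abs_self] at this
    nlinarith
  nlinarith

/-- Two arcs, from `1` to `(1+p) i` and from `0` to `1 + (1+q) i`: they meet, or one of them meets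
one of the vertical rays. -/
theorem cross_cols {γ δ : ℝ → ℂ} (hγ : Continuous γ) (hδ : Continuous δ) {p q : ℝ} (hp : 0 ≤ p)
    (hq : 0 ≤ q) (g0 : γ 0 = 1) (g1 : γ 1 = (1 + p) * I) (d0 : δ 0 = 0)
    (d1 : δ 1 = 1 + (1 + q) * I) :
    (∃ s ∈ Icc (0:ℝ) 1, ∃ t ∈ Icc (0:ℝ) 1, γ s = δ t) ∨
    (∃ s ∈ Icc (0:ℝ) 1, ∃ h : ℝ, 0 ≤ h ∧ γ s = -h * I) ∨
    (∃ s ∈ Icc (0:ℝ) 1, ∃ h : ℝ, 0 ≤ h ∧ γ s = 1 + (1 + q + h) * I) ∨
    (∃ s ∈ Icc (0:ℝ) 1, ∃ h : ℝ, 0 ≤ h ∧ δ s = 1 - h * I) ∨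
    (∃ s ∈ Icc (0:ℝ) 1, ∃ h : ℝ, 0 ≤ h ∧ δ s = (1 + p + h) * I) := by
  have hπ := Real.pi_pos
  obtain ⟨R1, hR1⟩ := (isCompact_Icc (a := (0:ℝ)) (b := 1)).exists_bound_of_continuousOn
    hγ.continuousOn
  obtain ⟨R2, hR2⟩ := (isCompact_Icc (a := (0:ℝ)) (b := 1)).exists_bound_of_continuousOn
    hδ.continuousOn
  have hR10 : 0 ≤ R1 := (norm_nonneg _).trans (hR1 0 ⟨le_rfl, zero_le_one⟩)
  have hR20 : 0 ≤ R2 := (norm_nonneg _).trans (hR2 0 ⟨le_rfl, zero_le_one⟩)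
  obtain ⟨ρ, hρ⟩ : ∃ ρ : ℝ, ρ = R1 + R2 + p + q + 3 := ⟨_, rfl⟩
  have ρ0 : 0 < ρ := by linarith
  set H : ℝ := √(ρ ^ 2 - 1) with hH
  have hH2 : H ^ 2 = ρ ^ 2 - 1 := Real.sq_sqrt (by nlinarith)
  have hH0 : 0 ≤ H := Real.sqrt_nonneg _
  have hH1 : ρ - 1 ≤ H := by
    apply Real.le_sqrt_of_sq_le
    nlinarith
  set β : ℝ := Real.arccos (1 / ρ) with hβ
  have h1ρ : 0 < 1 / ρ := by positivity
  have h1ρ' : 1 / ρ < 1 := by rw [div_lt_one ρ0]; linarith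
  have hβ0 : 0 < β := Real.arccos_pos.2 h1ρ'
  have hβ1 : β < Real.pi / 2 := Real.arccos_lt_pi_div_two.2 h1ρ
  have hcos : Real.cos β = 1 / ρ := Real.cos_arccos (by linarith) h1ρ'.le
  have hsin : Real.sin β = H / ρ := by
    rw [hβ, Real.sin_arccos, hH]
    rw [show 1 - (1 / ρ) ^ 2 = (ρ ^ 2 - 1) / ρ ^ 2 by field_simp]
    rw [Real.sqrt_div (by nlinarith), Real.sqrt_sq ρ0.le]
  have ρc : (ρ : ℂ) ≠ 0 := by exact_mod_cast ρ0.ne'
  -- the two paths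
  set P : ℝ → ℂ := F3 γ (1 - H * I) (ρ * I) with hP
  set Q : ℝ → ℂ := F3 δ (-(ρ * I)) (1 + H * I) with hQ
  have cP : Continuous P := F3_cont hγ _ _
  have cQ : Continuous Q := F3_cont hδ _ _
  have bP : ∀ t, ‖P t‖ ≤ ρ := by
    intro t
    rcases F3_cases γ (1 - H * I) (ρ * I) t with ⟨s, ⟨s0, s1⟩, hs⟩ | ⟨s, hs', hs⟩ | ⟨s, ⟨s0, s1⟩, hs⟩
    · rw [hP, hs, g0]
      refine norm_le_of (x := 1) (y := H) ρ0.le (by simp) ?_ (by linarith)
      rw [show ((1:ℂ) + s * (1 - H * I - 1)).im = -(s * H) by simp, abs_neg,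
        abs_of_nonneg (by positivity)]
      nlinarith
    · rw [hP, hs]; linarith [hR1 s hs']
    · rw [hP, hs, g1]
      refine norm_le_of (x := 0) (y := ρ) ρ0.le (by simp) ?_ (by nlinarith)
      rw [show (((1:ℂ) + p) * I + s * (ρ * I - (1 + p) * I)).im = (1 + p) + s * (ρ - (1 + p)) by
        simp]
      have : 0 ≤ s * (ρ - (1 + p)) := mul_nonneg s0 (by linarith)
      have : s * (ρ - (1 + p)) ≤ ρ - (1 + p) := mul_le_of_le_one_left (by linarith) s1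
      rw [abs_of_nonneg (by linarith)]
      linarith
  have bQ : ∀ t, ‖Q t‖ ≤ ρ := by
    intro t
    rcases F3_cases δ (-(ρ * I)) (1 + H * I) t with ⟨s, ⟨s0, s1⟩, hs⟩ | ⟨s, hs', hs⟩ | ⟨s, ⟨s0, s1⟩, hs⟩
    · rw [hQ, hs, d0]
      refine norm_le_of (x := 0) (y := ρ) ρ0.le (by simp) ?_ (by nlinarith)
      rw [show ((0:ℂ) + s * (-(ρ * I) - 0)).im = -(s * ρ) by simp, abs_neg,
        abs_of_nonneg (by positivity)]
      nlinarith
    · rw [hQ, hs]; linarith [hR2 s hs']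
    · rw [hQ, hs, d1]
      refine norm_le_of (x := 1) (y := H) ρ0.le (by simp) ?_ (by linarith)
      rw [show ((1:ℂ) + (1 + q) * I + s * (1 + H * I - (1 + (1 + q) * I))).im =
        (1 + q) + s * (H - (1 + q)) by simp]
      have : 0 ≤ s * (H - (1 + q)) := mul_nonneg s0 (by linarith)
      have : s * (H - (1 + q)) ≤ H - (1 + q) := mul_le_of_le_one_left (by linarith) s1
      rw [abs_of_nonneg (by linarith)]
      linarith
  have nρ : ∀ z : ℂ, ‖z‖ ≤ ρ → ‖z / ρ‖ ≤ 1 := fun z hz => by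
    rw [norm_div, norm_real, Real.norm_of_nonneg ρ0.le, div_le_one ρ0]; exact hz
  obtain ⟨s, t, hst⟩ := H777R2.crossing (a := fun s => Q s / ρ) (b := fun s => P s / ρ)
    (cQ.div_const _) (cP.div_const _) (fun s => nρ _ (bQ s)) (fun s => nρ _ (bP s))
    (α0 := -(Real.pi / 2)) (β0 := -β) (α1 := β) (β1 := Real.pi / 2)
    (by linarith) (by linarith) (by linarith) (by linarith)
    (by
      show Q 0 / ρ = _
      rw [hQ, F3_zero, exp_mul_I, ← ofReal_cos, ← ofReal_sin, Real.cos_neg, Real.sin_neg,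
        Real.cos_pi_div_two, Real.sin_pi_div_two]
      field_simp
      push_cast; ring)
    (by
      show Q 1 / ρ = _
      rw [hQ, F3_one, exp_mul_I, ← ofReal_cos, ← ofReal_sin, hcos, hsin]
      push_cast; field_simp)
    (by
      show P 0 / ρ = _
      rw [hP, F3_zero, exp_mul_I, ← ofReal_cos, ← ofReal_sin, Real.cos_neg, Real.sin_neg,
        hcos, hsin]
      push_cast; field_simp; ring)
    (by
      show P 1 / ρ = _
      rw [hP, F3_one, exp_mul_I, ← ofReal_cos, ← ofReal_sin, Real.cos_pi_div_two,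
        Real.sin_pi_div_two]
      push_cast; field_simp; ring)
  change Q s / ρ = P t / ρ at hst
  have hPQ : P t = Q s := by
    have : Q s / ρ * ρ = P t / ρ * ρ := by rw [hst]
    rw [div_mul_cancel₀ _ ρc, div_mul_cancel₀ _ ρc] at this
    exact this.symm
  rcases F3_cases γ (1 - H * I) (ρ * I) t with ⟨a, ⟨a0, a1⟩, ha⟩ | ⟨a, ha', ha⟩ | ⟨a, ⟨a0, a1⟩, ha⟩ <;>
  rcases F3_cases δ (-(ρ * I)) (1 + H * I) s with ⟨b, ⟨b0, b1⟩, hb⟩ | ⟨b, hb', hb⟩ | ⟨b, ⟨b0, b1⟩, hb⟩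
  · exfalso
    have e := congrArg Complex.re (ha.symm.trans (hPQ.trans hb))
    rw [g0, d0] at e
    simp at e
  · right; right; right; left
    refine ⟨b, hb', a * H, by positivity, ?_⟩
    rw [← hb, ← hQ, ← hPQ, hP, ha, g0]; push_cast; ring
  · exfalso
    have e := congrArg Complex.im (ha.symm.trans (hPQ.trans hb))
    rw [g0, d1] at e
    simp at e
    have : 0 ≤ b * (H - (1 + q)) := mul_nonneg b0 (by linarith)
    have : 0 ≤ a * H := by positivity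
    nlinarith
  · right; left
    refine ⟨a, ha', b * ρ, by positivity, ?_⟩
    rw [← ha, ← hP, hPQ, hQ, hb, d0]; push_cast; ring
  · left
    refine ⟨a, ha', b, hb', ?_⟩
    rw [← ha, ← hP, hPQ, hQ, hb]
  · right; right; left
    refine ⟨a, ha', b * (H - (1 + q)), mul_nonneg b0 (by linarith), ?_⟩
    rw [← ha, ← hP, hPQ, hQ, hb, d1]; push_cast; ring
  · exfalso
    have e := congrArg Complex.im (ha.symm.trans (hPQ.trans hb))
    rw [g1, d0] at e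
    simp at e
    have : 0 ≤ a * (ρ - (1 + p)) := mul_nonneg a0 (by linarith)
    have : 0 ≤ b * ρ := by positivity
    nlinarith
  · right; right; right; right
    refine ⟨b, hb', a * (ρ - (1 + p)), mul_nonneg a0 (by linarith), ?_⟩
    rw [← hb, ← hQ, ← hPQ, hP, ha, g1]; push_cast; ring
  · exfalso
    have e := congrArg Complex.re (ha.symm.trans (hPQ.trans hb))
    rw [g1, d1] at e
    simp at e

end Pool.Agent.H765R3.Peg
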