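import Pool.Agent.H765R3.Peg.Gauge

/-! Injectivity on a period, and winding numbers from polar angles. -/

set_option autoImplicit false
open Complex Set Topology Metric

namespace Pool.Agent.H765R3.Peg

open Pool.Agent.H763R2 Pool.Agent.H763R2.An

theorem inj_of {c : ℝ → ℂ} (L : Loop c) (hinj : Set.InjOn c (Set.Ico 0 1)) : Inj c := by
  intro x y hx hy h
  have e : ∀ t, c (Int.fract t) = c t := fun t => by
    have := L.per_int (Int.fract t) ⌊t⌋
    rw [Int.fract_add_floor] at this
    exact this.symm
  have h3 := hinj ⟨Int.fract_nonneg x, Int.fract_lt_one x⟩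
    ⟨Int.fract_nonneg y, Int.fract_lt_one y⟩ (by rw [e, e, h])
  obtain ⟨n, hn⟩ := Int.fract_eq_fract.1 h3
  have h4 : (n : ℝ) < 0 := by rw [← hn]; linarith
  have h5 : (-1 : ℝ) < n := by rw [← hn]; linarith
  have h6 : n < 0 := by exact_mod_cast h4
  have h7 : -1 < n := by exact_mod_cast h5
  omega

end Pool.Agent.H765R3.Peg
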