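import Pool.Agent.H765R3.Peg.Gauge
import Pool.Agent.H765R3.Peg.Conv

/-! Farthest points on a Jordan curve without inscribed squares. -/

set_option autoImplicit false
open Complex Set Topology Metric

namespace Pool.Agent.H765R3.Peg

open Pool.Agent.H763R2 Pool.Agent.H763R2.An
open Pool.Agent.H763R2.Dm (NoSq)

variable {c : ℝ → ℂ}

/-- the largest value of `ν (c t - b)` on the arc between the parameters `x` and `y` -/
noncomputable def far (c : ℝ → ℂ) (ν : ℂ → ℝ) (b : ℂ) (x y : ℝ) : ℝ :=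
  sSup ((fun s : ℝ => ν (c (x + s * (y - x)) - b)) '' Icc 0 1)

theorem far_le (hc : Continuous c) {ν : ℂ → ℝ} (hν : Continuous ν) (b : ℂ) (x y : ℝ) {s : ℝ}
    (hs : s ∈ Icc (0:ℝ) 1) : ν (c (x + s * (y - x)) - b) ≤ far c ν b x y := by
  have h : Continuous fun s : ℝ => ν (c (x + s * (y - x)) - b) := by fun_prop
  exact le_csSup (isCompact_Icc.bddAbove_image h.continuousOn) ⟨s, hs, rfl⟩

theorem far_attained (hc : Continuous c) {ν : ℂ → ℝ} (hν : Continuous ν) (b : ℂ) (x y : ℝ) :
    ∃ s ∈ Icc (0:ℝ) 1, ν (c (x + s * (y - x)) - b) = far c ν b x y := by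
  have h : Continuous fun s : ℝ => ν (c (x + s * (y - x)) - b) := by fun_prop
  obtain ⟨s, hs, h1⟩ := isCompact_Icc.exists_isMaxOn (nonempty_Icc.2 (zero_le_one (α := ℝ)))
    h.continuousOn
  refine ⟨s, hs, le_antisymm (far_le hc hν b x y hs) ?_⟩
  refine csSup_le ((nonempty_Icc.2 zero_le_one).image _) ?_
  rintro _ ⟨t, ht, rfl⟩
  exact h1 ht

theorem far_self (ν : ℂ → ℝ) (b : ℂ) (x : ℝ) : far c ν b x x = ν (c x - b) := by
  unfold far
  have : (fun s : ℝ => ν (c (x + s * (x - x)) - b)) '' Icc 0 1 = {ν (c x - b)} := by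
    ext z
    simp only [sub_self, mul_zero, add_zero, mem_image, mem_singleton_iff]
    constructor
    · rintro ⟨_, _, h⟩; exact h.symm
    · intro h; exact ⟨0, ⟨le_rfl, zero_le_one⟩, h.symm⟩
  rw [this, csSup_singleton]

theorem farthest (L : Loop c) (J : Inj c) (nosq : NoSq (range c)) {ν : ℂ → ℝ}
    (hν : Continuous ν) (h0 : ∀ z, z ≠ 0 → ν 0 < ν z)
    (hmono : ∀ z, ∀ t : ℝ, 1 ≤ t → ν z ≤ ν (t * z)) :
    ∃ x y, x < y ∧ y < x + 1 ∧
      (∃ p, x ≤ p ∧ p ≤ y ∧ ∀ t, ν (c t - c y) ≤ ν (c p - c y)) ∧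
      (∃ q, y ≤ q ∧ q ≤ x + 1 ∧ ∀ t, ν (c t - c y) ≤ ν (c q - c y)) ∧
      ∃ t, ν ((1 - I) * (c x - c y)) ≤ ν (c t - c y) := by
  have hc := L.cont
  obtain ⟨x, y, hx, hy, hG, d1, -⟩ := crossing L J nosq
    (G := fun p => far c ν (c p.2) p.1 p.2 - far c ν (c p.2) p.2 (p.1 + 1)) (by
      refine Continuous.sub ?_ ?_
      · exact isCompact_Icc.continuous_sSup (K := Icc (0:ℝ) 1)
          (f := fun (p : ℝ × ℝ) (s : ℝ) => ν (c (p.1 + s * (p.2 - p.1)) - c p.2)) (by
            have : Continuous fun (q : (ℝ × ℝ) × ℝ) =>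
              ν (c (q.1.1 + q.2 * (q.1.2 - q.1.1)) - c q.1.2) := by fun_prop
            exact this)
      · exact isCompact_Icc.continuous_sSup (K := Icc (0:ℝ) 1)
          (f := fun (p : ℝ × ℝ) (s : ℝ) => ν (c (p.2 + s * (p.1 + 1 - p.2)) - c p.2)) (by
            have : Continuous fun (q : (ℝ × ℝ) × ℝ) =>
              ν (c (q.1.2 + q.2 * (q.1.1 + 1 - q.1.2)) - c q.1.2) := by fun_prop
            exact this))
    (fun x y => by
      simp only
      have e1 : far c ν (c (y + 1)) (x + 1) (y + 1) = far c ν (c y) x y := by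
        unfold far
        congr 1
        refine image_congr fun s _ => ?_
        rw [show x + 1 + s * (y + 1 - (x + 1)) = x + s * (y - x) + 1 by ring, L.per, L.per]
      have e2 : far c ν (c (y + 1)) (y + 1) (x + 1 + 1) = far c ν (c y) y (x + 1) := by
        unfold far
        congr 1
        refine image_congr fun s _ => ?_
        rw [show y + 1 + s * (x + 1 + 1 - (y + 1)) = y + s * (x + 1 - y) + 1 by ring, L.per,
          L.per]
      rw [e1, e2])
    (fun x => by
      simp only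
      rw [far_self, sub_self]
      have h1 := far_le hc hν (c x) x (x + 1) (s := 1 / 2) (by norm_num)
      have h2 : c (x + 1 / 2 * (x + 1 - x)) - c x ≠ 0 := by
        rw [sub_ne_zero]
        exact (J x _ (by linarith) (by linarith)).symm
      linarith [h0 _ h2])
    (fun x => by
      simp only
      rw [far_self, sub_self]
      have h1 := far_le hc hν (c (x + 1)) x (x + 1) (s := 1 / 2) (by norm_num)
      have h2 : c (x + 1 / 2 * (x + 1 - x)) - c (x + 1) ≠ 0 := by
        rw [sub_ne_zero, L.per]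
        exact (J x _ (by linarith) (by linarith)).symm
      linarith [h0 _ h2])
    (σ := 1) (τ := 1) (Or.inl rfl) (Or.inl rfl)
  simp only at hG
  rw [one_mul] at d1
  obtain ⟨s, hs, hs1⟩ := far_attained hc hν (c y) x y
  obtain ⟨s', hs', hs1'⟩ := far_attained hc hν (c y) y (x + 1)
  have key : ∀ t, ν (c t - c y) ≤ far c ν (c y) x y := by
    intro t
    obtain ⟨t', ⟨h1, h2⟩, ht'⟩ : ∃ t' ∈ Icc x (x + 1), c t' = c t := by
      refine ⟨t - ⌊t - x⌋, ⟨?_, ?_⟩, ?_⟩
      · have := Int.floor_le (t - x); linarith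
      · have := Int.lt_floor_add_one (t - x); linarith
      · have := L.per_int t (-⌊t - x⌋)
        rw [← this]; push_cast; ring_nf
    rw [← ht']
    rcases le_total t' y with h | h
    · have h3 := far_le hc hν (c y) x y (s := (t' - x) / (y - x))
        ⟨div_nonneg (by linarith) (by linarith), (div_le_one (by linarith)).2 (by linarith)⟩
      rw [div_mul_cancel₀ _ (by linarith : y - x ≠ 0)] at h3
      rwa [show x + (t' - x) = t' by ring] at h3
    · have h3 := far_le hc hν (c y) y (x + 1) (s := (t' - y) / (x + 1 - y))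
        ⟨div_nonneg (by linarith) (by linarith), (div_le_one (by linarith)).2 (by linarith)⟩
      rw [div_mul_cancel₀ _ (by linarith : x + 1 - y ≠ 0)] at h3
      rw [show y + (t' - y) = t' by ring] at h3
      linarith
  refine ⟨x, y, hx, hy, ⟨x + s * (y - x), ?_, ?_, fun t => ?_⟩,
    ⟨y + s' * (x + 1 - y), ?_, ?_, fun t => ?_⟩, ?_⟩
  · have := mul_nonneg hs.1 (by linarith : 0 ≤ y - x); linarith
  · have := mul_le_mul_of_nonneg_right hs.2 (by linarith : 0 ≤ y - x); linarith
  · rw [hs1]; exact key t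
  · have := mul_nonneg hs'.1 (by linarith : 0 ≤ x + 1 - y); linarith
  · have := mul_le_mul_of_nonneg_right hs'.2 (by linarith : 0 ≤ x + 1 - y); linarith
  · rw [hs1']; linarith [key t]
  · have hv : (1 - I) * (c x - c y) ≠ 0 := by
      refine mul_ne_zero ?_ (sub_ne_zero.2 (J x y hx hy))
      intro h
      have := congrArg Complex.re h
      simp at this
    obtain ⟨r, hr, t, ht⟩ := ray L hv d1
    refine ⟨t, ?_⟩
    have e : c t - c y = ((1 + r : ℝ) : ℂ) * ((1 - I) * (c x - c y)) := by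
      rw [ht]; unfold DD Sq.Dv; push_cast; ring
    rw [e]
    exact hmono _ _ (by linarith)

end Pool.Agent.H765R3.Peg
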