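import Pool.Agent.H763R2.An.Re

/-! A gauge version of the odd degree theorem for chords of a Jordan curve without inscribed
squares. -/

set_option autoImplicit false
open Complex Set Topology Metric

namespace Pool.Agent.H765R3.Peg

open Pool.Agent.H763R2 Pool.Agent.H763R2.An
open Pool.Agent.H763R2.Dm (NoSq)

variable {c : ℝ → ℂ}

theorem per_int2 {G : ℝ × ℝ → ℝ} (hper : ∀ x y, G (x + 1, y + 1) = G (x, y)) (x y : ℝ) (n : ℤ) :
    G (x + n, y + n) = G (x, y) := by
  have h : Function.Periodic (fun t => G (x + t, y + t)) 1 := fun t => by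
    show G (x + (t + 1), y + (t + 1)) = G (x + t, y + t)
    rw [← add_assoc, ← add_assoc, hper]
  have := h.int_mul n 0
  simpa using this

/-- positivity near a diagonal -/
theorem near_diag {H : ℝ × ℝ → ℝ} (hH : Continuous H) (hper : ∀ x y, H (x + 1, y + 1) = H (x, y))
    {e s : ℝ} (h : ∀ x, 0 < H (x, x + e)) :
    ∃ η > 0, ∀ η' ∈ Ioo (0:ℝ) η, ∀ x, 0 < H (x, x + e + s * η') := by
  have hF : Continuous fun p : ℝ × ℝ => H (p.1, p.1 + e + s * p.2) := by fun_prop
  have hO : IsOpen {p : ℝ × ℝ | 0 < H (p.1, p.1 + e + s * p.2)} := isOpen_lt continuous_const hF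
  obtain ⟨u, v, hu, hv, hu1, hv1, huv⟩ := generalized_tube_lemma (s := Icc (0:ℝ) 1) isCompact_Icc
    (t := {(0:ℝ)}) isCompact_singleton hO (by
      rintro ⟨x, y⟩ ⟨-, hy⟩
      simp only [mem_singleton_iff] at hy
      subst hy
      show 0 < H (x, x + e + s * 0)
      rw [mul_zero, add_zero]
      exact h x)
  obtain ⟨η, hη, hη1⟩ := Metric.isOpen_iff.1 hv 0 (hv1 rfl)
  refine ⟨η, hη, fun η' h' x => ?_⟩
  have hm : (Int.fract x, η') ∈ u ×ˢ v := ⟨hu1 ⟨Int.fract_nonneg x, (Int.fract_lt_one x).le⟩,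
    hη1 (by rw [Metric.mem_ball, Real.dist_eq, sub_zero, abs_of_pos h'.1]; exact h'.2)⟩
  have := huv hm
  change 0 < H (Int.fract x, Int.fract x + e + s * η') at this
  have e1 := per_int2 hper (Int.fract x) (Int.fract x + e + s * η') ⌊x⌋
  rw [← e1] at this
  have e2 : Int.fract x + (⌊x⌋ : ℝ) = x := Int.fract_add_floor x
  have e3 : Int.fract x + e + s * η' + (⌊x⌋ : ℝ) = x + e + s * η' := by linear_combination e2
  rwa [e2, e3] at this

/-- The gauge principle. -/
theorem crossing (L : Loop c) (J : Inj c) (nosq : NoSq (range c)) {G : ℝ × ℝ → ℝ}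
    (hG : Continuous G) (hper : ∀ x y, G (x + 1, y + 1) = G (x, y))
    (h0 : ∀ x, G (x, x) < 0) (h1 : ∀ x, 0 < G (x, x + 1)) {σ τ : ℝ} (hσ : σ = 1 ∨ σ = -1)
    (hτ : τ = 1 ∨ τ = -1) :
    ∃ x y, x < y ∧ y < x + 1 ∧ G (x, y) = 0 ∧ 0 ≤ σ * mgc c (DD c x y) ∧
      0 ≤ τ * mgc c (CC c x y) := by
  by_contra hcon
  have hM := (mgc_sg L).cont
  have cD := L.DD_cont
  have cC := L.CC_cont
  set f1 : ℝ × ℝ → ℝ := fun p => σ * mgc c (DD c p.1 p.2) with hf1
  set f2 : ℝ × ℝ → ℝ := fun p => τ * mgc c (CC c p.1 p.2) with hf2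
  have c1 : Continuous f1 := continuous_const.mul (hM.comp cD)
  have c2 : Continuous f2 := continuous_const.mul (hM.comp cC)
  have p1 : ∀ x y, f1 (x + 1, y + 1) = f1 (x, y) := fun x y => by
    simp only [hf1, L.DD_per]
  have p2 : ∀ x y, f2 (x + 1, y + 1) = f2 (x, y) := fun x y => by
    simp only [hf2, L.CC_per]
  have σ0 : σ ≠ 0 := by rcases hσ with h | h <;> rw [h] <;> norm_num
  have τ0 : τ ≠ 0 := by rcases hτ with h | h <;> rw [h] <;> norm_num
  have nzf : ∀ x y, x < y → y < x + 1 → ¬ (f1 (x, y) = 0 ∧ f2 (x, y) = 0) := by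
    rintro x y hx hy ⟨e1, e2⟩
    refine nz L J (mgc_sg L) nosq hx hy ⟨?_, ?_⟩
    · exact (mul_eq_zero.1 e1).resolve_left σ0
    · exact (mul_eq_zero.1 e2).resolve_left τ0
  -- the compact fundamental domain
  set Kc : Set (ℝ × ℝ) := {p | p.1 ∈ Icc (0:ℝ) 1 ∧ p.1 ≤ p.2 ∧ p.2 ≤ p.1 + 1} with hKc
  have cK : IsCompact Kc := by
    refine (isCompact_Icc (a := (0:ℝ)) (b := 1)).prod (isCompact_Icc (a := (0:ℝ)) (b := 2))
      |>.of_isClosed_subset ?_ ?_
    · exact (isClosed_Icc.preimage continuous_fst).inter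
        ((isClosed_le continuous_fst continuous_snd).inter
          (isClosed_le continuous_snd (continuous_fst.add continuous_const)))
    · rintro ⟨x, y⟩ ⟨⟨a1, a2⟩, a3, a4⟩
      simp only at a1 a2 a3 a4
      exact ⟨⟨a1, a2⟩, by simp; linarith, by simp; linarith⟩
  set Z : Set (ℝ × ℝ) := Kc ∩ {p | 0 ≤ f1 p ∧ 0 ≤ f2 p ∧ 0 ≤ G p} with hZ
  have cZ : IsCompact Z := cK.inter_right ((isClosed_le continuous_const c1).inter
    ((isClosed_le continuous_const c2).inter (isClosed_le continuous_const hG)))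
  have pZ : ∀ p ∈ Z, 0 < G p := by
    rintro ⟨x, y⟩ ⟨⟨hx, hxy, hyx⟩, a1, a2, a3⟩
    simp only at hx hxy hyx
    rcases a3.lt_or_eq with h | h
    · exact h
    exfalso
    rcases hxy.lt_or_eq with h' | h'
    · rcases hyx.lt_or_eq with h'' | h''
      · exact hcon ⟨x, y, h', h'', h.symm, a1, a2⟩
      · have := h1 x
        rw [← h'', ← h] at this
        exact lt_irrefl _ this
    · have := h0 x
      rw [show ((x, x) : ℝ × ℝ) = (x, y) by rw [h'], ← h] at this
      exact lt_irrefl _ this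
  obtain ⟨δ, hδ, hδZ⟩ : ∃ δ > 0, ∀ p ∈ Z, δ ≤ G p := by
    rcases Z.eq_empty_or_nonempty with h | h
    · exact ⟨1, one_pos, fun p hp => by rw [h] at hp; exact absurd hp (notMem_empty p)⟩
    · obtain ⟨p, hp, hmin⟩ := cZ.exists_isMinOn h hG.continuousOn
      exact ⟨G p, pZ p hp, fun q hq => hmin hq⟩
  obtain ⟨Bd, hBd⟩ := cK.exists_bound_of_continuousOn c1.continuousOn
  have hB0 : 0 ≤ Bd := (norm_nonneg _).trans (hBd (0, 0) ⟨⟨le_rfl, zero_le_one⟩, le_rfl, by simp⟩)
  set K : ℝ := (Bd + 1) / δ with hK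
  have K0 : 0 < K := by positivity
  have hKδ : K * δ = Bd + 1 := by rw [hK]; field_simp
  set m : ℝ × ℝ → ℝ := fun p => K * max (G p) 0 with hm
  have cm : Continuous m := by fun_prop
  have pm : ∀ x y, m (x + 1, y + 1) = m (x, y) := fun x y => by simp only [hm, hper]
  set g : ℝ × ℝ → ℂ := fun p => ((f1 p - m p : ℝ) : ℂ) + ((f2 p - m p : ℝ) : ℂ) * I with hg
  have cg : Continuous g := by
    rw [hg]
    exact (continuous_ofReal.comp (c1.sub cm)).add
      ((continuous_ofReal.comp (c2.sub cm)).mul continuous_const)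
  have pg : ∀ x y, g (x + 1, y + 1) = g (x, y) := fun x y => by
    simp only [hg, p1, p2, pm]
  have g_re : ∀ p, (g p).re = f1 p - m p := fun p => by simp [hg]
  have g_im : ∀ p, (g p).im = f2 p - m p := fun p => by simp [hg]
  have gz : ∀ x y, x < y → y < x + 1 → g (x, y) ≠ 0 := by
    intro x y hx hy hgz
    have e1 := congrArg Complex.re hgz
    have e2 := congrArg Complex.im hgz
    rw [g_re, zero_re, sub_eq_zero] at e1
    rw [g_im, zero_im, sub_eq_zero] at e2
    rcases le_or_gt (G (x, y)) 0 with h | h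
    · have : m (x, y) = 0 := by simp only [hm]; rw [max_eq_right h, mul_zero]
      rw [this] at e1 e2
      exact nzf x y hx hy ⟨e1, e2⟩
    · have hmv : m (x, y) = K * G (x, y) := by simp only [hm]; rw [max_eq_left h.le]
      have hxx : x + ((-⌊x⌋ : ℤ) : ℝ) = Int.fract x := by push_cast; rw [Int.fract]; ring
      have q1 := per_int2 p1 x y (-⌊x⌋)
      have q2 := per_int2 p2 x y (-⌊x⌋)
      have q3 := per_int2 hper x y (-⌊x⌋)
      set P : ℝ × ℝ := (x + ((-⌊x⌋ : ℤ) : ℝ), y + ((-⌊x⌋ : ℤ) : ℝ)) with hP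
      have hPK : P ∈ Kc := by
        refine ⟨?_, ?_, ?_⟩
        · show x + ((-⌊x⌋ : ℤ) : ℝ) ∈ Icc (0:ℝ) 1
          rw [hxx]; exact ⟨Int.fract_nonneg x, (Int.fract_lt_one x).le⟩
        · show x + ((-⌊x⌋ : ℤ) : ℝ) ≤ y + ((-⌊x⌋ : ℤ) : ℝ); linarith
        · show y + ((-⌊x⌋ : ℤ) : ℝ) ≤ x + ((-⌊x⌋ : ℤ) : ℝ) + 1; linarith
      have hPos : 0 ≤ K * G (x, y) := by positivity
      have hPZ : P ∈ Z := ⟨hPK, by rw [q1, e1, hmv]; exact hPos, by rw [q2, e2, hmv]; exact hPos,
        by rw [q3]; exact h.le⟩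
      have b1 := hδZ P hPZ
      have b2 := hBd P hPK
      rw [q1, e1, hmv, Real.norm_of_nonneg hPos] at b2
      rw [q3] at b1
      have : K * δ ≤ K * G (x, y) := mul_le_mul_of_nonneg_left b1 K0.le
      linarith
  -- lift
  have hne : UU.Nonempty := ⟨(0, 1/2), by norm_num [UU]⟩
  have : ContractibleSpace UU := UU_convex.contractibleSpace hne
  have : LocallyPathConnectedSpace UU := UU_open.locallyPathConnectedSpace
  obtain ⟨k, hk, hke⟩ := H777R2.exists_log (X := UU) (g := fun p => g p.1)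
    (cg.comp continuous_subtype_val) (fun p => gz p.1.1 p.1.2 p.2.1 p.2.2)
  have hsh : ∀ p : UU, ((p.1.1 + 1, p.1.2 + 1) : ℝ × ℝ) ∈ UU := by
    rintro ⟨⟨x, y⟩, h1, h2⟩
    simp only at h1 h2
    exact ⟨by simp; linarith, by simp; linarith⟩
  have hconst := H777R2.exp_const (X := UU)
    (k := fun p => k ⟨(p.1.1 + 1, p.1.2 + 1), hsh p⟩ - k p)
    ((hk.comp (by fun_prop)).sub hk) (c := 1) (fun p => by
      rw [exp_sub, hke, hke]
      simp only [pg]
      exact div_self (gz p.1.1 p.1.2 p.2.1 p.2.2))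
  -- near the upper boundary
  have z1 : ∀ x, mgc c (DD c x (x + 1)) = 0 := fun x => by
    rw [(mgc_sg L).zero L]
    refine ⟨x, ?_⟩
    unfold DD Sq.Dv
    rw [L.per]; ring
  have z2 : ∀ x, mgc c (CC c x (x + 1)) = 0 := fun x => by
    rw [(mgc_sg L).zero L]
    refine ⟨x, ?_⟩
    unfold CC Sq.Cv
    rw [L.per]; ring
  obtain ⟨η1, hη1, u1⟩ := near_diag (H := fun p => m p - f1 p) (cm.sub c1)
    (fun x y => by simp only [pm, p1]) (e := 1) (s := -1) (fun x => by
      simp only [hf1, z1, mul_zero, sub_zero, hm]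
      rw [max_eq_left (h1 x).le]
      exact mul_pos K0 (h1 x))
  obtain ⟨η2, hη2, u2⟩ := near_diag (H := fun p => m p - f2 p) (cm.sub c2)
    (fun x y => by simp only [pm, p2]) (e := 1) (s := -1) (fun x => by
      simp only [hf2, z2, mul_zero, sub_zero, hm]
      rw [max_eq_left (h1 x).le]
      exact mul_pos K0 (h1 x))
  obtain ⟨η3, hη3, u3⟩ := near_diag (H := fun p => - G p) hG.neg
    (fun x y => by simp only [hper]) (e := 0) (s := 1) (fun x => by
      rw [add_zero]; have := h0 x; linarith)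
  obtain ⟨η, hη, a1, a2, a3, a4⟩ : ∃ η : ℝ, 0 < η ∧ η < η1 ∧ η < η2 ∧ η < η3 ∧ η < 1 := by
    refine ⟨min (min η1 η2) (min η3 1) / 2, by positivity, ?_, ?_, ?_, ?_⟩
    all_goals
      have h5 : 0 < min (min η1 η2) (min η3 1) := by positivity
      have h6 := min_le_left (min η1 η2) (min η3 1)
      have h7 := min_le_right (min η1 η2) (min η3 1)
      have h8 := min_le_left η1 η2
      have h9 := min_le_right η1 η2
      have h10 := min_le_left η3 1
      have h11 := min_le_right η3 1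
      linarith
  -- constant increment is zero
  have mem1 : ∀ s : ℝ, ((s, s + 1 + -1 * η) : ℝ × ℝ) ∈ UU := fun s =>
    ⟨by simp only; linarith, by simp only; linarith⟩
  have inc0 : k ⟨(1, 1 + 1 + -1 * η), mem1 1⟩ - k ⟨(0, 0 + 1 + -1 * η), mem1 0⟩ = 0 := by
    have := H777R2.side (g := fun s : ℝ => g (s, s + 1 + -1 * η))
      (k := fun s : ℝ => k ⟨(s, s + 1 + -1 * η), mem1 s⟩) (cg.comp (by fun_prop))
      (hk.comp (by fun_prop)) (fun s => hke _) (c := -1 - I) (fun s => by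
        have b1 := u1 η ⟨hη, a1⟩ s
        have b2 := u2 η ⟨hη, a2⟩ s
        have e : (g (s, s + 1 + -1 * η) / (-1 - I)).re =
            ((m (s, s + 1 + -1 * η) - f1 (s, s + 1 + -1 * η)) +
            (m (s, s + 1 + -1 * η) - f2 (s, s + 1 + -1 * η))) / 2 := by
          rw [div_re, g_re, g_im]
          have : normSq (-1 - I) = 2 := by rw [normSq_apply]; simp; norm_num
          rw [this]; simp; ring
        rw [e]; linarith) 1 0
    rw [this]
    have e : g (1, 1 + 1 + -1 * η) = g (0, 0 + 1 + -1 * η) := by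
      have := pg 0 (0 + 1 + -1 * η)
      rw [← this]; congr 2 <;> ring
    rw [e, sub_self]
  -- near the lower boundary
  obtain ⟨θ, n, A, ho⟩ := exists_odd L J nosq
  have mem2 : ∀ s : ℝ, ((s, s + 0 + 1 * η) : ℝ × ℝ) ∈ UU := fun s =>
    ⟨by simp only; linarith, by simp only; linarith⟩
  have στ : σ * (σ * τ) = τ := by rcases hσ with h | h <;> rw [h] <;> ring
  have hlow : ∀ s : ℝ, g (s, s + 0 + 1 * η) =
      ((f1 (s, s + 0 + 1 * η) : ℝ) : ℂ) + ((f2 (s, s + 0 + 1 * η) : ℝ) : ℂ) * I := fun s => by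
    have b3 := u3 η ⟨hη, a3⟩ s
    have : m (s, s + 0 + 1 * η) = 0 := by
      simp only [hm]; rw [max_eq_right (by linarith), mul_zero]
    simp only [hg, this, sub_zero]
  have key : ∀ s : ℝ, exp ((((k ⟨(s, s + 0 + 1 * η), mem2 s⟩).im -
      σ * τ * θ s (s + 0 + 1 * η) : ℝ) : ℂ) * I) = (σ : ℂ) := by
    intro s
    obtain ⟨ρ, hρ, r1, r2⟩ := A.ex s (s + 0 + 1 * η) (mem2 s).1 (mem2 s).2
    have e1 := hke ⟨(s, s + 0 + 1 * η), mem2 s⟩
    simp only at e1
    rw [hlow s] at e1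
    simp only [hf1, hf2, r1, r2] at e1
    set κ := k ⟨(s, s + 0 + 1 * η), mem2 s⟩ with hκ
    set T := θ s (s + 0 + 1 * η) with hT
    have hct : Real.cos (σ * τ * T) = Real.cos T ∧ Real.sin (σ * τ * T) = σ * τ * Real.sin T := by
      rcases hσ with h | h <;> rcases hτ with h' | h' <;> rw [h, h'] <;> simp
    have e2 : ((σ * (ρ * Real.cos T) : ℝ) : ℂ) + ((τ * (ρ * Real.sin T) : ℝ) : ℂ) * I =
        (σ : ℂ) * ρ * exp (((σ * τ * T : ℝ) : ℂ) * I) := by
      rw [exp_mul_I, ← ofReal_cos, ← ofReal_sin, hct.1, hct.2]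
      have h3 : (τ : ℂ) = σ * (σ * τ) := by rw [← ofReal_mul, ← ofReal_mul, στ]
      push_cast
      rw [show ((τ : ℂ) * (↑ρ * Complex.sin ↑T) * I) = (σ * (σ * τ)) * (↑ρ * Complex.sin ↑T) * I by
        rw [← h3]]
      ring
    rw [e2] at e1
    have hnorm : Real.exp κ.re = ρ := by
      have := congrArg norm e1
      rw [norm_exp, norm_mul, norm_mul, norm_exp_ofReal_mul_I, mul_one, norm_real, norm_real,
        Real.norm_of_nonneg hρ.le] at this
      rw [this]
      rcases hσ with h | h <;> rw [h] <;> simp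
    have e3 : exp κ = (ρ : ℂ) * exp ((κ.im : ℂ) * I) := by
      conv_lhs => rw [← re_add_im κ]
      rw [exp_add, ← ofReal_exp, hnorm]
    rw [e3] at e1
    have hρ' : (ρ : ℂ) ≠ 0 := by exact_mod_cast hρ.ne'
    have e4 : exp ((κ.im : ℂ) * I) = (σ : ℂ) * exp (((σ * τ * T : ℝ) : ℂ) * I) := by
      apply mul_left_cancel₀ hρ'
      rw [e1]; ring
    rw [ofReal_sub, sub_mul, exp_sub, e4, mul_div_assoc, div_self (exp_ne_zero _), mul_one]
  have cθ : Continuous fun s : ℝ => θ s (s + 0 + 1 * η) :=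
    A.path (p := fun s => (s, s + 0 + 1 * η)) (by fun_prop) mem2
  have ck : Continuous fun s : ℝ => k ⟨(s, s + 0 + 1 * η), mem2 s⟩ := hk.comp (by fun_prop)
  have hc2 := H777R2.exp_const (X := ℝ)
    (k := fun s : ℝ => (((k ⟨(s, s + 0 + 1 * η), mem2 s⟩).im -
      σ * τ * θ s (s + 0 + 1 * η) : ℝ) : ℂ) * I)
    (by
      have h3 : Continuous fun s : ℝ => (k ⟨(s, s + 0 + 1 * η), mem2 s⟩).im :=
        continuous_im.comp ck
      exact (continuous_ofReal.comp (h3.sub (continuous_const.mul cθ))).mul continuous_const)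
    key 1 0
  have hc3 : (k ⟨(1, 1 + 0 + 1 * η), mem2 1⟩).im - σ * τ * θ 1 (1 + 0 + 1 * η) =
      (k ⟨(0, 0 + 0 + 1 * η), mem2 0⟩).im - σ * τ * θ 0 (0 + 0 + 1 * η) := by
    have := congrArg Complex.im hc2
    simpa using this
  have hθ := A.per 0 (0 + 0 + 1 * η) (mem2 0).1 (mem2 0).2
  have e5 : θ 1 (1 + 0 + 1 * η) = θ (0 + 1) (0 + 0 + 1 * η + 1) := by congr 1 <;> ring
  rw [e5, hθ] at hc3
  -- compare the increments
  have hi1 := hconst ⟨(0, 0 + 0 + 1 * η), mem2 0⟩ ⟨(0, 0 + 1 + -1 * η), mem1 0⟩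
  simp only at hi1
  have t1 : (⟨((0:ℝ) + 1, 0 + 1 + -1 * η + 1), hsh ⟨(0, 0 + 1 + -1 * η), mem1 0⟩⟩ : UU) =
      ⟨(1, 1 + 1 + -1 * η), mem1 1⟩ := by
    apply Subtype.ext; simp only [Prod.mk.injEq]; constructor <;> ring
  have t2 : (⟨((0:ℝ) + 1, 0 + 0 + 1 * η + 1), hsh ⟨(0, 0 + 0 + 1 * η), mem2 0⟩⟩ : UU) =
      ⟨(1, 1 + 0 + 1 * η), mem2 1⟩ := by
    apply Subtype.ext; simp only [Prod.mk.injEq]; constructor <;> ring
  rw [t1, t2, inc0] at hi1
  have hi2 := congrArg Complex.im hi1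
  rw [sub_im, zero_im] at hi2
  have hn : σ * τ * (n * (2 * Real.pi)) = 0 := by linarith
  have hπ := Real.pi_pos
  have hn0 : (n : ℝ) = 0 := by
    rcases mul_eq_zero.1 hn with h | h
    · exact absurd h (mul_ne_zero σ0 τ0)
    · rcases mul_eq_zero.1 h with h | h
      · exact h
      · linarith
  have : n = 0 := by exact_mod_cast hn0
  rw [this] at ho
  exact absurd ho (by decide)

/-- a point in the closed interior is seen through the curve in every direction -/
theorem ray (L : Loop c) {z v : ℂ} (hv : v ≠ 0) (hz : 0 ≤ mgc c z) :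
    ∃ s : ℝ, 0 ≤ s ∧ ∃ t, c t = z + s * v := by
  by_contra hcon
  have hno : ∀ s : ℝ, 0 ≤ s → ∀ t, c t ≠ z + s * v := fun s hs t h => hcon ⟨s, hs, t, h⟩
  have hz' : z ∉ range c := by
    rintro ⟨t, ht⟩
    exact hno 0 le_rfl t (by rw [ht]; simp)
  obtain ⟨n, k, hk, ek, e⟩ := L.exW hz'
  have hc := L.cont
  have hv' : -v ≠ 0 := neg_ne_zero.2 hv
  have h1 : c 1 = c 0 := by have := L.per 0; rwa [zero_add] at this
  have e1 := Sq.log_diff_on (g := fun t => c t - z) (k := k) (by fun_prop) hk ek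
    (c := -v) hv' (fun t _ => by
      by_contra hs
      have h2 : ((c t - z) / -v).re ≤ 0 ∧ ((c t - z) / -v).im = 0 := by
        rw [mem_slitPlane_iff] at hs
        push Not at hs
        exact hs
      refine hno (-((c t - z) / -v).re) (by linarith [h2.1]) t ?_
      have h3 : (c t - z) / -v = ((((c t - z) / -v).re : ℝ) : ℂ) := by
        apply Complex.ext
        · simp
        · rw [h2.2]; simp
      have h4 : c t - z = ((((c t - z) / -v).re : ℝ) : ℂ) * -v := by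
        rw [← h3]; field_simp
      push_cast
      linear_combination h4)
  simp only [h1, sub_self] at e1
  have hw : IsWc c z 0 := ⟨k, hk, ek, by rw [e1]; push_cast; ring⟩
  have h5 := mgc_out hw
  have h6 : mgc c z = 0 := le_antisymm h5 hz
  rw [(mgc_sg L).zero L] at h6
  exact hz' h6

end Pool.Agent.H765R3.Peg
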