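import Pool.Agent.H765R3.Peg.Gauge
import Pool.Agent.H765R3.Peg.Cols

/-! Lipschitz closed curves without inscribed squares have short chords cutting off a given fraction
of the parameter circle. -/

set_option autoImplicit false
open Complex Set Topology Metric

namespace Pool.Agent.H765R3.Peg

open Pool.Agent.H763R2 Pool.Agent.H763R2.An
open Pool.Agent.H763R2.Dm (NoSq)

variable {c : ℝ → ℂ}

/-- distances in the coordinates of a chord -/
theorem far {A V P Q x y : ℂ} (hP : P = A + x * V) (hQ : Q = A + y * V)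
    (h : 1 ≤ |(x - y).re| ∨ 1 ≤ |(x - y).im|) : ‖V‖ ≤ ‖P - Q‖ := by
  have e : P - Q = (x - y) * V := by rw [hP, hQ]; ring
  rw [e, norm_mul]
  refine le_mul_of_one_le_left (norm_nonneg _) ?_
  rcases h with h | h
  · exact h.trans (abs_re_le_norm _)
  · exact h.trans (abs_im_le_norm _)

/-- the part of the curve between the parameters `s ≤ t` contains two points such that the steps
from the beginning to the first point, to the second point and to the end have length at least `N` -/
def Legs (c : ℝ → ℂ) (s t N : ℝ) : Prop :=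
  ∃ p q, s ≤ p ∧ p ≤ q ∧ q ≤ t ∧ N ≤ ‖c s - c p‖ ∧ N ≤ ‖c p - c q‖ ∧ N ≤ ‖c q - c t‖

/-- one of the two arcs goes around the chord -/
theorem arcs_long (L : Loop c) (J : Inj c) {x y : ℝ} (hx : x < y) (hy : y < x + 1)
    (d1 : 0 ≤ mgc c (DD c x y)) (d2 : 0 ≤ mgc c (CC c x y)) :
    Legs c x y ‖c y - c x‖ ∨ Legs c y (x + 1) ‖c y - c x‖ := by
  have hAB : c y - c x ≠ 0 := sub_ne_zero.2 (J x y hx hy).symm
  have hv : I * (c y - c x) ≠ 0 := mul_ne_zero I_ne_zero hAB
  obtain ⟨p, hp, t1, ht1⟩ := ray L hv d1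
  obtain ⟨q, hq, t2, ht2⟩ := ray L hv d2
  -- move the parameters into the window
  have win : ∀ t, ∃ t' ∈ Icc x (x + 1), c t' = c t := fun t => by
    refine ⟨t - ⌊t - x⌋, ⟨?_, ?_⟩, ?_⟩
    · have := Int.floor_le (t - x); linarith
    · have := Int.lt_floor_add_one (t - x); linarith
    · have := L.per_int t (-⌊t - x⌋)
      rw [← this]; push_cast; ring_nf
  obtain ⟨u, ⟨hu1, hu2⟩, hu⟩ := win t1
  obtain ⟨w, ⟨hw1, hw2⟩, hw⟩ := win t2
  set V := c y - c x with hV
  set A := c x with hA
  have hper : c (x + 1) = A := L.per x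
  have pA : A = A + (0:ℂ) * V := by ring
  have pA' : c (x + 1) = A + (0:ℂ) * V := by rw [hper]; ring
  have pB : c y = A + (1:ℂ) * V := by rw [hV]; ring
  have pP : c u = A + ((1 + p) * I : ℂ) * V := by
    rw [hu, ht1]; unfold DD Sq.Dv; rw [← hA, ← hV]; ring
  have pQ : c w = A + (1 + (1 + q) * I : ℂ) * V := by
    rw [hw, ht2]; unfold CC Sq.Cv; rw [← hA, ← hV]
    rw [show c y = A + V by rw [hV]; ring]; ring
  have V0 : 0 < ‖V‖ := norm_pos_iff.2 hAB
  -- coordinates
  set ζ : ℝ → ℂ := fun t => (c t - A) / V with hζ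
  have cζ : Continuous ζ := (L.cont.sub continuous_const).div_const _
  have ζe : ∀ t, c t = A + ζ t * V := fun t => by
    simp only [hζ]; rw [div_mul_cancel₀ _ hAB]; ring
  have ζof : ∀ t z, c t = A + z * V → ζ t = z := fun t z h => by
    simp only [hζ]; rw [h, add_sub_cancel_left, mul_div_assoc, div_self hAB, mul_one]
  have hux : u ≠ x := by
    intro h
    have := ζof u _ pP
    rw [h, ζof x 0 (by rw [← hA]; ring)] at this
    have := congrArg Complex.im this
    simp at this
    linarith
  have hux' : u ≠ x + 1 := by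
    intro h
    have := ζof u _ pP
    rw [h, ζof (x + 1) 0 pA'] at this
    have := congrArg Complex.im this
    simp at this
    linarith
  have hwy : w ≠ y := by
    intro h
    have := ζof w _ pQ
    rw [h, ζof y 1 pB] at this
    have := congrArg Complex.im this
    simp at this
    linarith
  -- the case of both points on one arc
  rcases le_total u y with hu3 | hu3 <;> rcases le_total w y with hw3 | hw3
  · left
    rcases le_total u w with h | h
    · have a1 := far pA pP (Or.inr (by simp; rw [abs_of_nonpos (by linarith)]; linarith))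
      have a2 := far pP pQ (Or.inl (by simp))
      have a3 := far pQ pB (Or.inr (by simp; rw [abs_of_nonneg (by linarith)]; linarith))
      exact ⟨_, _, hu1, h, hw3, a1, a2, a3⟩
    · have a1 := far pA pQ (Or.inl (by simp))
      have a2 := far pQ pP (Or.inl (by simp))
      have a3 := far pP pB (Or.inl (by simp))
      exact ⟨_, _, hw1, h, hu3, a1, a2, a3⟩
  · -- D' on the first arc, E' on the second
    have := cross_cols (γ := fun s => ζ (y + s * (u - y))) (δ := fun s => ζ (x + 1 + s * (w - (x + 1))))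
      (cζ.comp (by fun_prop)) (cζ.comp (by fun_prop)) hp hq
      (by simp only [zero_mul, add_zero]; exact ζof y 1 pB)
      (by
        show ζ (y + 1 * (u - y)) = _
        rw [show y + 1 * (u - y) = u by ring]; exact ζof u _ pP)
      (by simp only [zero_mul, add_zero]; exact ζof _ 0 pA')
      (by
        show ζ (x + 1 + 1 * (w - (x + 1))) = _
        rw [show x + 1 + 1 * (w - (x + 1)) = w by ring]; exact ζof w _ pQ)
    have r1 : ∀ s ∈ Icc (0:ℝ) 1, u ≤ y + s * (u - y) ∧ y + s * (u - y) ≤ y := by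
      rintro s ⟨s0, s1⟩
      constructor <;> nlinarith
    have r2 : ∀ s ∈ Icc (0:ℝ) 1, w ≤ x + 1 + s * (w - (x + 1)) ∧
        x + 1 + s * (w - (x + 1)) ≤ x + 1 := by
      rintro s ⟨s0, s1⟩
      constructor <;> nlinarith
    rcases this with ⟨s, hs, t, ht, e⟩ | ⟨s, hs, h, hh, e⟩ | ⟨s, hs, h, hh, e⟩ | ⟨s, hs, h, hh, e⟩ |
      ⟨s, hs, h, hh, e⟩
    · exfalso
      obtain ⟨b1, b2⟩ := r1 s hs
      obtain ⟨b3, b4⟩ := r2 t ht
      have hlt : y + s * (u - y) < x + 1 + t * (w - (x + 1)) := by
        rcases (b2.trans (hw3.trans b3)).lt_or_eq with h | h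
        · exact h
        · exact absurd (le_antisymm (b3.trans (h ▸ b2)) hw3) hwy
      refine J _ _ hlt ?_ ?_
      · have : x < u := lt_of_le_of_ne hu1 hux.symm
        linarith
      · rw [ζe, ζe (x + 1 + t * (w - (x + 1)))]
        exact congrArg (fun z => A + z * V) e
    · left
      obtain ⟨b1, b2⟩ := r1 s hs
      have pF : c (y + s * (u - y)) = A + (-h * I : ℂ) * V := by rw [ζe]; exact congrArg (fun z => A + z * V) e
      have a1 := far pA pP (Or.inr (by simp; rw [abs_of_nonpos (by linarith)]; linarith))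
      have a2 := far pP pF (Or.inr (by simp; rw [abs_of_nonneg (by linarith)]; linarith))
      have a3 := far pF pB (Or.inl (by simp))
      exact ⟨_, _, hu1, b1, b2, a1, a2, a3⟩
    · left
      obtain ⟨b1, b2⟩ := r1 s hs
      have pF : c (y + s * (u - y)) = A + (1 + (1 + q + h) * I : ℂ) * V := by
        rw [ζe]; exact congrArg (fun z => A + z * V) e
      have a1 := far pA pP (Or.inr (by simp; rw [abs_of_nonpos (by linarith)]; linarith))
      have a2 := far pP pF (Or.inl (by simp))
      have a3 := far pF pB (Or.inr (by simp; rw [abs_of_nonneg (by linarith)]; linarith))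
      exact ⟨_, _, hu1, b1, b2, a1, a2, a3⟩
    · right
      obtain ⟨b1, b2⟩ := r2 s hs
      have pF : c (x + 1 + s * (w - (x + 1))) = A + (1 - h * I : ℂ) * V := by
        rw [ζe]; exact congrArg (fun z => A + z * V) e
      have a1 := far pB pQ (Or.inr (by simp; rw [abs_of_nonpos (by linarith)]; linarith))
      have a2 := far pQ pF (Or.inr (by simp; rw [abs_of_nonneg (by linarith)]; linarith))
      have a3 := far pF pA' (Or.inl (by simp))
      exact ⟨_, _, hw3, b1, b2, a1, a2, a3⟩
    · right
      obtain ⟨b1, b2⟩ := r2 s hs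
      have pF : c (x + 1 + s * (w - (x + 1))) = A + ((1 + p + h) * I : ℂ) * V := by
        rw [ζe]; exact congrArg (fun z => A + z * V) e
      have a1 := far pB pQ (Or.inr (by simp; rw [abs_of_nonpos (by linarith)]; linarith))
      have a2 := far pQ pF (Or.inl (by simp))
      have a3 := far pF pA' (Or.inr (by simp; rw [abs_of_nonneg (by linarith)]; linarith))
      exact ⟨_, _, hw3, b1, b2, a1, a2, a3⟩
  · -- E' on the first arc, D' on the second
    have := cross_cols (γ := fun s => ζ (y + s * (u - y))) (δ := fun s => ζ (x + s * (w - x)))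
      (cζ.comp (by fun_prop)) (cζ.comp (by fun_prop)) hp hq
      (by simp only [zero_mul, add_zero]; exact ζof y 1 pB)
      (by
        show ζ (y + 1 * (u - y)) = _
        rw [show y + 1 * (u - y) = u by ring]; exact ζof u _ pP)
      (by simp only [zero_mul, add_zero]; exact ζof _ 0 (by rw [← hA]; ring))
      (by
        show ζ (x + 1 * (w - x)) = _
        rw [show x + 1 * (w - x) = w by ring]; exact ζof w _ pQ)
    have r1 : ∀ s ∈ Icc (0:ℝ) 1, y ≤ y + s * (u - y) ∧ y + s * (u - y) ≤ u := by
      rintro s ⟨s0, s1⟩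
      constructor <;> nlinarith
    have r2 : ∀ s ∈ Icc (0:ℝ) 1, x ≤ x + s * (w - x) ∧ x + s * (w - x) ≤ w := by
      rintro s ⟨s0, s1⟩
      constructor <;> nlinarith
    rcases this with ⟨s, hs, t, ht, e⟩ | ⟨s, hs, h, hh, e⟩ | ⟨s, hs, h, hh, e⟩ | ⟨s, hs, h, hh, e⟩ |
      ⟨s, hs, h, hh, e⟩
    · exfalso
      obtain ⟨b1, b2⟩ := r1 s hs
      obtain ⟨b3, b4⟩ := r2 t ht
      have hlt : x + t * (w - x) < y + s * (u - y) := by
        rcases (b4.trans (hw3.trans b1)).lt_or_eq with h | h
        · exact h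
        · exact absurd (le_antisymm hw3 (b1.trans (h ▸ b4))) hwy
      refine J _ _ hlt ?_ ?_
      · have : u < x + 1 := lt_of_le_of_ne hu2 hux'
        linarith
      · rw [ζe, ζe (y + s * (u - y))]
        exact congrArg (fun z => A + z * V) e.symm
    · right
      obtain ⟨b1, b2⟩ := r1 s hs
      have pF : c (y + s * (u - y)) = A + (-h * I : ℂ) * V := by rw [ζe]; exact congrArg (fun z => A + z * V) e
      have a1 := far pB pF (Or.inl (by simp))
      have a2 := far pF pP (Or.inr (by simp; rw [abs_of_nonpos (by linarith)]; linarith))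
      have a3 := far pP pA' (Or.inr (by simp; rw [abs_of_nonneg (by linarith)]; linarith))
      exact ⟨_, _, b1, b2, hu2, a1, a2, a3⟩
    · right
      obtain ⟨b1, b2⟩ := r1 s hs
      have pF : c (y + s * (u - y)) = A + (1 + (1 + q + h) * I : ℂ) * V := by
        rw [ζe]; exact congrArg (fun z => A + z * V) e
      have a1 := far pB pF (Or.inr (by simp; rw [abs_of_nonpos (by linarith)]; linarith))
      have a2 := far pF pP (Or.inl (by simp))
      have a3 := far pP pA' (Or.inr (by simp; rw [abs_of_nonneg (by linarith)]; linarith))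
      exact ⟨_, _, b1, b2, hu2, a1, a2, a3⟩
    · left
      obtain ⟨b1, b2⟩ := r2 s hs
      have pF : c (x + s * (w - x)) = A + (1 - h * I : ℂ) * V := by
        rw [ζe]; exact congrArg (fun z => A + z * V) e
      have a1 := far pA pF (Or.inl (by simp))
      have a2 := far pF pQ (Or.inr (by simp; rw [abs_of_nonpos (by linarith)]; linarith))
      have a3 := far pQ pB (Or.inr (by simp; rw [abs_of_nonneg (by linarith)]; linarith))
      exact ⟨_, _, b1, b2, hw3, a1, a2, a3⟩
    · left
      obtain ⟨b1, b2⟩ := r2 s hs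
      have pF : c (x + s * (w - x)) = A + ((1 + p + h) * I : ℂ) * V := by
        rw [ζe]; exact congrArg (fun z => A + z * V) e
      have a1 := far pA pF (Or.inr (by simp; rw [abs_of_nonpos (by linarith)]; linarith))
      have a2 := far pF pQ (Or.inl (by simp))
      have a3 := far pQ pB (Or.inr (by simp; rw [abs_of_nonneg (by linarith)]; linarith))
      exact ⟨_, _, b1, b2, hw3, a1, a2, a3⟩
  · right
    rcases le_total u w with h | h
    · have a1 := far pB pP (Or.inl (by simp))
      have a2 := far pP pQ (Or.inl (by simp))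
      have a3 := far pQ pA' (Or.inl (by simp))
      exact ⟨_, _, hu3, h, hw2, a1, a2, a3⟩
    · have a1 := far pB pQ (Or.inr (by simp; rw [abs_of_nonpos (by linarith)]; linarith))
      have a2 := far pQ pP (Or.inl (by simp))
      have a3 := far pP pA' (Or.inr (by simp; rw [abs_of_nonneg (by linarith)]; linarith))
      exact ⟨_, _, hw3, h, hu2, a1, a2, a3⟩

/-- a path of three legs has a leg of at most a third of the parameter length -/
theorem Legs.short {s t N : ℝ} (h : Legs c s t N) :
    ∃ a b, a ≤ b ∧ b - a ≤ (t - s) / 3 ∧ N ≤ ‖c a - c b‖ := by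
  obtain ⟨q, r, h1, h2, h3, a1, a2, a3⟩ := h
  by_cases b1 : q - s ≤ (t - s) / 3
  · exact ⟨s, q, h1, b1, a1⟩
  by_cases b2 : r - q ≤ (t - s) / 3
  · exact ⟨q, r, h2, b2, a2⟩
  · exact ⟨r, t, h3, by push Not at b1 b2; linarith, a3⟩

theorem legs_gauge (L : Loop c) (J : Inj c) (nosq : NoSq (range c)) {G : ℝ × ℝ → ℝ}
    (hG : Continuous G) (hper : ∀ x y, G (x + 1, y + 1) = G (x, y))
    (h0 : ∀ x, G (x, x) < 0) (h1 : ∀ x, 0 < G (x, x + 1)) :
    ∃ x y, x < y ∧ y < x + 1 ∧ G (x, y) = 0 ∧
      (Legs c x y ‖c y - c x‖ ∨ Legs c y (x + 1) ‖c y - c x‖) := by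
  obtain ⟨x, y, hx, hy, hg, d1, d2⟩ := crossing L J nosq hG hper h0 h1 (σ := 1) (τ := 1)
    (Or.inl rfl) (Or.inl rfl)
  rw [one_mul] at d1 d2
  exact ⟨x, y, hx, hy, hg, arcs_long L J hx hy d1 d2⟩

theorem short_chord (L : Loop c) (J : Inj c) (nosq : NoSq (range c)) {s : ℝ} (h0 : 0 < s)
    (h1 : s < 1) :
    ∃ x a b, |a - b| ≤ max s (1 - s) / 3 ∧ ‖c (x + s) - c x‖ ≤ ‖c a - c b‖ := by
  obtain ⟨x, y, hx, hy, hG, h⟩ := legs_gauge L J nosq
    (G := fun p => p.2 - p.1 - s) (by fun_prop) (fun x y => by simp only; ring)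
    (fun x => by simp only; linarith) (fun x => by simp only; linarith)
  simp only at hG
  have hys : y = x + s := by linarith
  rw [hys] at h
  have m1 := le_max_left s (1 - s)
  have m2 := le_max_right s (1 - s)
  rcases h with h | h
  · obtain ⟨a, b, h1, h2, h3⟩ := h.short
    exact ⟨x, a, b, by rw [abs_sub_comm, abs_of_nonneg (by linarith)]; linarith, h3⟩
  · obtain ⟨a, b, h1, h2, h3⟩ := h.short
    exact ⟨x, a, b, by rw [abs_sub_comm, abs_of_nonneg (by linarith)]; linarith, h3⟩

end Pool.Agent.H765R3.Peg
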