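import Pool.Agent.H765R3.Peg.Short
import Pool.Agent.H765R3.Peg.Conv

/-! Jordan curves without inscribed squares have chords with a detour of three legs. -/

namespace Pool.Agent.H765R3.ThreeLegs

/-- Let `C` be a Jordan curve parametrised by `c : ℝ → ℂ` of period `1` that does not contain the
four vertices of a square, and let `G : ℝ → ℝ → ℝ` be continuous with
`G (x + 1) (y + 1) = G x y`, `G x x < 0` and `G x (x + 1) > 0` for all `x`, `y`. Then there are
`x < y < x + 1` with `G x y = 0` such that one of the two arcs of `C` between `A = c x` and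
`B = c y` contains two points `P`, `Q`, met in this order on the way along this arc, such that
the three distances from its first end to `P`, from `P` to `Q` and from `Q` to its last end are
all at least `|A - B|`. -/
theorem result (c : ℝ → ℂ) (hc : Continuous c) (hper : ∀ t, c (t + 1) = c t)
    (hinj : Set.InjOn c (Set.Ico 0 1))
    (hno : ¬ ∃ z w : ℂ, w ≠ 0 ∧ z ∈ Set.range c ∧ z + w ∈ Set.range c ∧
      z + w + Complex.I * w ∈ Set.range c ∧ z + Complex.I * w ∈ Set.range c)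
    (G : ℝ → ℝ → ℝ) (hG : Continuous fun p : ℝ × ℝ => G p.1 p.2)
    (hG1 : ∀ x y, G (x + 1) (y + 1) = G x y) (h0 : ∀ x, G x x < 0) (h1 : ∀ x, 0 < G x (x + 1)) :
    ∃ x y, x < y ∧ y < x + 1 ∧ G x y = 0 ∧
      ((∃ p q, x ≤ p ∧ p ≤ q ∧ q ≤ y ∧ ‖c x - c y‖ ≤ ‖c x - c p‖ ∧ ‖c x - c y‖ ≤ ‖c p - c q‖ ∧
          ‖c x - c y‖ ≤ ‖c q - c y‖) ∨
        ∃ p q, y ≤ p ∧ p ≤ q ∧ q ≤ x + 1 ∧ ‖c x - c y‖ ≤ ‖c y - c p‖ ∧
          ‖c x - c y‖ ≤ ‖c p - c q‖ ∧ ‖c x - c y‖ ≤ ‖c q - c x‖) := by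
  have L : Pool.Agent.H763R2.An.Loop c := ⟨hc, hper⟩
  have J := Pool.Agent.H765R3.Peg.inj_of L hinj
  obtain ⟨x, y, hx, hy, hg, h⟩ := Pool.Agent.H765R3.Peg.legs_gauge L J hno
    (G := fun p => G p.1 p.2) hG hG1 h0 h1
  refine ⟨x, y, hx, hy, hg, ?_⟩
  rw [norm_sub_rev (c x) (c y)]
  rcases h with h | h
  · exact Or.inl h
  · refine Or.inr ?_
    obtain ⟨p, q, a1, a2, a3, b1, b2, b3⟩ := h
    rw [hper] at b3
    exact ⟨p, q, a1, a2, a3, b1, b2, b3⟩

end Pool.Agent.H765R3.ThreeLegs
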